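import Mathlib

/-! The Bae-Schmitt presentation of the Chow groups of an open union of strata of the stack of
prestable genus zero curves with `n ≥ 1` markings: decorated strata classes in normal form,
modulo graph isomorphisms, the sign rule at bivalent vertices, the WDVV relations, and the classes
supported outside the open set. -/

namespace Pool.Agent.MP_52bf41_ag.H48

open Classical

/-- Half-edge graphs with `n` legs. -/
structure Graph (n : ℕ) where
  V : Type
  H : Type
  [finV : Fintype V]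
  [finH : Fintype H]
  base : H → V
  inv : H → H
  leg : Fin n → H

attribute [instance] Graph.finV Graph.finH

variable {n : ℕ}

/-- Prestable graph of genus zero: a tree whose legs are the fixed points of the involution. -/
def Graph.IsTree (Γ : Graph n) : Prop :=
  Function.Involutive Γ.inv ∧ Function.Injective Γ.leg ∧
  (∀ h, Γ.inv h = h ↔ h ∈ Set.range Γ.leg) ∧
  (∀ v w, Relation.ReflTransGen (fun x y => ∃ h, Γ.base h = x ∧ Γ.base (Γ.inv h) = y) v w) ∧
  2 * Fintype.card Γ.V + n = Fintype.card Γ.H + 2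

/-- Valence of a vertex. -/
noncomputable def Graph.val (Γ : Graph n) (v : Γ.V) : ℕ := (Γ.base ⁻¹' {v}).ncard

/-- `f` is the half-edge bijection of an isomorphism of marked graphs. -/
def Graph.IsIso (Γ Γ' : Graph n) (f : Γ.H ≃ Γ'.H) : Prop :=
  (∃ e : Γ.V ≃ Γ'.V, ∀ h, Γ'.base (f h) = e (Γ.base h)) ∧
  (∀ h, Γ'.inv (f h) = f (Γ.inv h)) ∧ ∀ i, Γ'.leg i = f (Γ.leg i)

/-- Degenerate the vertex `v`: the half-edges in `J` move to a new vertex joined to `v`
by a new edge. -/
noncomputable def Graph.split (Γ : Graph n) (v : Γ.V) (J : Finset Γ.H) : Graph n where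
  V := Option Γ.V
  H := Γ.H ⊕ Bool
  base := Sum.elim (fun h => if h ∈ J then none else some (Γ.base h))
    (fun b => if b then none else some v)
  inv := Sum.map Γ.inv not
  leg := fun i => Sum.inl (Γ.leg i)

/-- An open union of strata: a set of trees closed under isomorphism and edge contraction. -/
def IsOpenStrata (U : Set (Graph n)) : Prop :=
  (∀ Γ ∈ U, Γ.IsTree) ∧
  (∀ (Γ Γ' : Graph n) (f : Γ.H ≃ Γ'.H), Γ.IsIso Γ' f → Γ ∈ U → Γ' ∈ U) ∧
  ∀ (Γ : Graph n) (v : Γ.V) (J : Finset Γ.H), Γ.IsTree → (∀ h ∈ J, Γ.base h = v) →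
    Γ.split v J ∈ U → Γ ∈ U

/-- A graph with a psi-exponent on each half-edge. -/
abbrev Gen (n : ℕ) : Type 1 := Σ Γ : Graph n, Γ.H → ℕ

/-- Normal form: no decoration at vertices of valence at least three, and at most one decorated
half-edge at each vertex. -/
def Normal (x : Gen n) : Prop :=
  x.1.IsTree ∧ (∀ h, 3 ≤ x.1.val (x.1.base h) → x.2 h = 0) ∧
  ∀ h h', h ≠ h' → x.1.base h = x.1.base h' → x.2 h = 0 ∨ x.2 h' = 0

/-- Codimension: number of edges plus degree of the decoration. -/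
def codim (x : Gen n) : ℕ := (Fintype.card x.1.V - 1) + ∑ h, x.2 h

/-- `J` is a set of half-edges at `v` that contains `k, l` and not `i, j`. -/
def Graph.Sep (Γ : Graph n) (v : Γ.V) (i j k l : Γ.H) (J : Finset Γ.H) : Prop :=
  (∀ h ∈ J, Γ.base h = v) ∧ i ∉ J ∧ j ∉ J ∧ k ∈ J ∧ l ∈ J

/-- The boundary divisor `D(i j | k l)` glued into the vertex `v`. -/
noncomputable def gluedD (x : Gen n) (v : x.1.V) (i j k l : x.1.H) : Gen n →₀ ℚ :=
  ∑ J ∈ Finset.univ.filter (x.1.Sep v i j k l),
    Finsupp.single ⟨x.1.split v J, Sum.elim x.2 0⟩ 1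

/-- The relations. -/
inductive IsRel (U : Set (Graph n)) : (Gen n →₀ ℚ) → Prop
  | iso (x y : Gen n) (f : x.1.H ≃ y.1.H) : Normal x → x.1.IsIso y.1 f → (∀ h, y.2 (f h) = x.2 h) →
      IsRel U (Finsupp.single x 1 - Finsupp.single y 1)
  | sign (x : Gen n) (h h' : x.1.H) : Normal x → h ≠ h' → x.1.base h = x.1.base h' →
      x.1.val (x.1.base h) = 2 → x.2 h' = 0 →
      IsRel U (Finsupp.single x 1 -
        Finsupp.single ⟨x.1, x.2 ∘ Equiv.swap h h'⟩ ((-1) ^ x.2 h))
  | wdvv (x : Gen n) (v : x.1.V) (i j k l : x.1.H) : Normal x → [i, j, k, l].Nodup →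
      (∀ h ∈ [i, j, k, l], x.1.base h = v) →
      IsRel U (gluedD x v i j k l - gluedD x v i k j l)
  | out (x : Gen n) : Normal x → x.1 ∉ U → IsRel U (Finsupp.single x 1)

/-- The codimension `d` part of the presented vector space. -/
noncomputable def chow (U : Set (Graph n)) (d : ℕ) :
    Submodule ℚ ((Gen n →₀ ℚ) ⧸ Submodule.span ℚ {r | IsRel U r}) :=
  Submodule.span ℚ {c | ∃ x : Gen n, Normal x ∧ codim x = d ∧
    c = Submodule.Quotient.mk (Finsupp.single x 1)}

/-- Its dimension. -/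
noncomputable def chowRank (U : Set (Graph n)) (d : ℕ) : Cardinal := Module.rank ℚ (chow U d)

/-- Trees with one vertex carrying all legs and all other vertices univalent. -/
def tails (n : ℕ) : Set (Graph n) :=
  {Γ | Γ.IsTree ∧ ∃ v₀, (∀ i, Γ.base (Γ.leg i) = v₀) ∧ ∀ v, v ≠ v₀ → Γ.val v = 1}

end Pool.Agent.MP_52bf41_ag.H48
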