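import Mathlib
import Pool.Agent.MP_52bf41_ag.H48.Defs

namespace Pool.Agent.MP_52bf41_ag.H48

open Classical

variable {n : ℕ}

theorem val_eq_of_iso {Γ Γ' : Graph n} {f : Γ.H ≃ Γ'.H} (e : Γ.V ≃ Γ'.V)
    (he : ∀ h, Γ'.base (f h) = e (Γ.base h)) (v : Γ.V) : Γ'.val (e v) = Γ.val v := by
  unfold Graph.val
  have : Γ'.base ⁻¹' {e v} = f '' (Γ.base ⁻¹' {v}) := by
    ext h'
    obtain ⟨h, rfl⟩ := f.surjective h'
    simp [he]
  rw [this, Set.ncard_image_of_injective _ f.injective]

theorem val_base_iso {Γ Γ' : Graph n} {f : Γ.H ≃ Γ'.H} (hf : Γ.IsIso Γ' f) (h : Γ.H) :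
    Γ'.val (Γ'.base (f h)) = Γ.val (Γ.base h) := by
  obtain ⟨⟨e, he⟩, -, -⟩ := hf
  rw [he, val_eq_of_iso e he]

theorem isIso_symm {Γ Γ' : Graph n} {f : Γ.H ≃ Γ'.H} (hf : Γ.IsIso Γ' f) :
    Γ'.IsIso Γ f.symm := by
  obtain ⟨⟨e, he⟩, h2, h3⟩ := hf
  refine ⟨⟨e.symm, fun h => ?_⟩, fun h => ?_, fun i => ?_⟩
  · obtain ⟨h, rfl⟩ := f.surjective h
    simp [he]
  · obtain ⟨h, rfl⟩ := f.surjective h
    simp [h2]
  · simp [h3]

theorem isTree_iso {Γ Γ' : Graph n} {f : Γ.H ≃ Γ'.H} (hf : Γ.IsIso Γ' f) (hT : Γ.IsTree) :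
    Γ'.IsTree := by
  obtain ⟨⟨e, he⟩, h2, h3⟩ := hf
  obtain ⟨t1, t2, t3, t4, t5⟩ := hT
  refine ⟨fun h => ?_, fun i j hij => ?_, fun h => ?_, fun v w => ?_, ?_⟩
  · obtain ⟨h, rfl⟩ := f.surjective h
    rw [h2, h2, t1]
  · rw [h3, h3] at hij
    exact t2 (f.injective hij)
  · obtain ⟨h, rfl⟩ := f.surjective h
    rw [h2, f.injective.eq_iff, t3]
    simp [h3]
  · obtain ⟨v, rfl⟩ := e.surjective v
    obtain ⟨w, rfl⟩ := e.surjective w
    have key := t4 v w
    induction key with
    | refl => exact Relation.ReflTransGen.refl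
    | tail _ hbc ih =>
      obtain ⟨h, rfl, rfl⟩ := hbc
      exact ih.tail ⟨f h, he h, by rw [h2, he]⟩
  · rw [← Fintype.card_congr e, ← Fintype.card_congr f, t5]

theorem tails_iso {Γ Γ' : Graph n} {f : Γ.H ≃ Γ'.H} (hf : Γ.IsIso Γ' f) (h : Γ ∈ tails n) :
    Γ' ∈ tails n := by
  obtain ⟨hT, v₀, h1, h2⟩ := h
  refine ⟨isTree_iso hf hT, ?_⟩
  obtain ⟨⟨e, he⟩, -, h3⟩ := hf
  refine ⟨e v₀, fun i => by rw [h3, he, h1], fun v hv => ?_⟩
  obtain ⟨v, rfl⟩ := e.surjective v
  rw [val_eq_of_iso e he]
  exact h2 v (fun h => hv (by rw [h]))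

theorem eq_of_val_one {Γ : Graph n} {v : Γ.V} (hv : Γ.val v = 1) {h h' : Γ.H}
    (h1 : Γ.base h = v) (h2 : Γ.base h' = v) : h = h' := by
  obtain ⟨a, ha⟩ := Set.ncard_eq_one.mp hv
  have e1 : h ∈ Γ.base ⁻¹' {v} := h1
  have e2 : h' ∈ Γ.base ⁻¹' {v} := h2
  rw [ha] at e1 e2
  rw [e1, e2]

theorem exists_of_val_one {Γ : Graph n} {v : Γ.V} (hv : Γ.val v = 1) : ∃ h, Γ.base h = v := by
  obtain ⟨a, ha⟩ := Set.ncard_eq_one.mp hv
  have : a ∈ Γ.base ⁻¹' {v} := by rw [ha]; rfl
  exact ⟨a, this⟩

theorem val_split_of_ne {Γ : Graph n} {v : Γ.V} {J : Finset Γ.H} (hJ : ∀ h ∈ J, Γ.base h = v)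
    {w : Γ.V} (hw : w ≠ v) : (Γ.split v J).val (some w) = Γ.val w := by
  have : ((Sum.elim (fun h => if h ∈ J then none else some (Γ.base h))
      (fun b => if b then none else some v) : Γ.H ⊕ Bool → Option Γ.V) ⁻¹' {some w}) =
      Sum.inl '' (Γ.base ⁻¹' {w}) := by
    ext h
    rcases h with h | b
    · by_cases hh : h ∈ J
      · simp [hh, hJ h hh, hw.symm]
      · simp [hh]
    · cases b <;> simp [hw.symm]
  exact (congrArg Set.ncard this).trans (Set.ncard_image_of_injective _ Sum.inl_injective)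

theorem split_not_mem_tails {Γ : Graph n} {v : Γ.V} {J : Finset Γ.H} {i k : Γ.H}
    (hi : Γ.base i = v) (hiJ : i ∉ J) (hk : k ∈ J) : Γ.split v J ∉ tails n := by
  rintro ⟨-, v₀, -, h2⟩
  have a : v₀ = none := by
    by_contra hne
    have := eq_of_val_one (h2 none (Ne.symm hne)) (h := Sum.inl k) (h' := Sum.inr true)
      (by simp [Graph.split, hk]) (by simp [Graph.split])
    cases this
  have b : v₀ = some v := by
    by_contra hne
    have := eq_of_val_one (h2 (some v) (Ne.symm hne)) (h := Sum.inl i) (h' := Sum.inr false)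
      (by simp [Graph.split, hiJ, hi]) (by simp [Graph.split])
    cases this
  rw [a] at b
  cases b

theorem tails_open : IsOpenStrata (tails n) := by
  refine ⟨fun Γ h => h.1, fun Γ Γ' f hf h => tails_iso hf h, ?_⟩
  rintro Γ v J hT hJ ⟨-, v₀, h1, h2⟩
  refine ⟨hT, ?_⟩
  have hb : ∀ i, (if Γ.leg i ∈ J then none else some (Γ.base (Γ.leg i))) = v₀ := h1
  rcases v₀ with _ | w₀
  · refine ⟨v, fun i => ?_, fun w hw => ?_⟩
    · apply hJ
      by_contra hh
      simpa [hh] using hb i
    · rw [← val_split_of_ne hJ hw]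
      exact h2 _ (by simp)
  · refine ⟨w₀, fun i => ?_, fun w hw => ?_⟩
    · have := hb i
      by_cases hh : Γ.leg i ∈ J
      · simp [hh] at this
      · simpa [hh] using this
    · by_cases hwv : w = v
      · exfalso
        subst hwv
        have a := h2 none (by simp)
        have b := h2 (some w) (fun h => hw (Option.some.inj h))
        rcases (hT.2.2.2.1 w w₀).cases_head with h | ⟨c, ⟨h, hh, -⟩, -⟩
        · exact hw h
        · by_cases hJ' : h ∈ J
          · have := eq_of_val_one a (h := Sum.inl h) (h' := Sum.inr true)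
              (by simp [Graph.split, hJ']) (by simp [Graph.split])
            cases this
          · have := eq_of_val_one b (h := Sum.inl h) (h' := Sum.inr false)
              (by simp [Graph.split, hJ', hh]) (by simp [Graph.split])
            cases this
      · rw [← val_split_of_ne hJ hwv]
        exact h2 _ (fun h => hw (Option.some.inj h))

theorem le_val_of_legs {Γ : Graph n} (hT : Γ.IsTree) {v₀ : Γ.V}
    (h1 : ∀ i, Γ.base (Γ.leg i) = v₀) : n ≤ Γ.val v₀ := by
  unfold Graph.val
  have : Set.range Γ.leg ⊆ Γ.base ⁻¹' {v₀} := by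
    rintro _ ⟨i, rfl⟩
    exact h1 i
  have h := Set.ncard_le_ncard this (Set.toFinite _)
  rwa [Set.ncard_range_of_injective hT.2.1, Nat.card_eq_fintype_card, Fintype.card_fin] at h

theorem base_inv_tail {Γ : Graph n} (hT : Γ.IsTree) {v₀ : Γ.V}
    (h2 : ∀ v, v ≠ v₀ → Γ.val v = 1) {t : Γ.H} (ht : Γ.base t ≠ v₀) :
    Γ.base (Γ.inv t) = v₀ := by
  by_contra hw
  have key : ∀ u, Relation.ReflTransGen
      (fun x y => ∃ h, Γ.base h = x ∧ Γ.base (Γ.inv h) = y) (Γ.base t) u →
      u = Γ.base t ∨ u = Γ.base (Γ.inv t) := by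
    intro u hu
    induction hu with
    | refl => exact Or.inl rfl
    | tail _ hbc ih =>
      obtain ⟨h, hh, rfl⟩ := hbc
      rcases ih with ih | ih
      · have : h = t := eq_of_val_one (h2 _ ht) (hh.trans ih) rfl
        rw [this]; exact Or.inr rfl
      · have : h = Γ.inv t := eq_of_val_one (h2 _ hw) (hh.trans ih) rfl
        rw [this, hT.1]; exact Or.inl rfl
  rcases key v₀ (hT.2.2.2.1 _ _) with h | h
  · exact ht h.symm
  · exact hw h.symm

/-- The standard star. -/
def star (n : ℕ) (T : Type) [Fintype T] : Graph n where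
  V := Option T
  H := Fin n ⊕ T × Bool
  base := Sum.elim (fun _ => none) (fun p => if p.2 then some p.1 else none)
  inv := Sum.map id (fun p => (p.1, !p.2))
  leg := Sum.inl

def starDec (n : ℕ) {T : Type} (c : T → ℕ) : Fin n ⊕ T × Bool → ℕ :=
  Sum.elim (fun _ => 0) (fun p => if p.2 then c p.1 else 0)

def starGen (n : ℕ) {T : Type} [Fintype T] (c : T → ℕ) : Gen n := ⟨star n T, starDec n c⟩

theorem star_isTree (T : Type) [Fintype T] : (star n T).IsTree := by
  refine ⟨?_, Sum.inl_injective, ?_, ?_, ?_⟩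
  · rintro (i | ⟨t, b⟩) <;> simp [star]
  · rintro (i | ⟨t, b⟩)
    · exact ⟨fun _ => ⟨i, rfl⟩, fun _ => rfl⟩
    · constructor
      · intro h
        have h' : (Sum.inr (t, !b) : Fin n ⊕ T × Bool) = Sum.inr (t, b) := h
        simp at h'
      · rintro ⟨j, h⟩
        cases h
  · have a : ∀ v : Option T, Relation.ReflTransGen (fun x y => ∃ h, (star n T).base h = x ∧
        (star n T).base ((star n T).inv h) = y) v none := by
      rintro (_ | t)
      · exact Relation.ReflTransGen.refl
      · exact Relation.ReflTransGen.single ⟨Sum.inr (t, true), by simp [star], by simp [star]⟩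
    have b : ∀ v : Option T, Relation.ReflTransGen (fun x y => ∃ h, (star n T).base h = x ∧
        (star n T).base ((star n T).inv h) = y) none v := by
      rintro (_ | t)
      · exact Relation.ReflTransGen.refl
      · exact Relation.ReflTransGen.single ⟨Sum.inr (t, false), by simp [star], by simp [star]⟩
    exact fun v w => (a v).trans (b w)
  · have a : Fintype.card (star n T).V = Fintype.card T + 1 := by
      rw [← Fintype.card_option]; exact Fintype.card_congr (Equiv.refl _)
    have b : Fintype.card (star n T).H = n + Fintype.card T * 2 := by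
      have : Fintype.card (star n T).H = Fintype.card (Fin n ⊕ T × Bool) :=
        Fintype.card_congr (Equiv.refl _)
      rw [this]; simp
    omega

theorem star_val_some (T : Type) [Fintype T] (t : T) : (star n T).val (some t) = 1 := by
  have : ((Sum.elim (fun _ => none) (fun p => if p.2 then some p.1 else none) :
      Fin n ⊕ T × Bool → Option T) ⁻¹' {some t}) = {Sum.inr (t, true)} := by
    ext h
    rcases h with i | ⟨s, b⟩
    · simp
    · cases b <;> simp
  exact (congrArg Set.ncard this).trans (Set.ncard_singleton _)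

theorem star_mem_tails (T : Type) [Fintype T] : star n T ∈ tails n := by
  refine ⟨star_isTree T, none, fun i => rfl, ?_⟩
  rintro (_ | t) h
  · exact absurd rfl h
  · exact star_val_some T t

theorem star_val_none (T : Type) [Fintype T] : n ≤ (star n T).val none :=
  le_val_of_legs (star_isTree T) (fun _ => rfl)

theorem starGen_normal {T : Type} [Fintype T] (c : T → ℕ) : Normal (starGen n c) := by
  refine ⟨star_isTree T, ?_, ?_⟩
  · rintro (i | ⟨t, b⟩) h
    · rfl
    · cases b
      · rfl
      · have : (starGen n c).1.val ((starGen n c).1.base (Sum.inr (t, true))) = 1 :=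
          star_val_some T t
        omega
  · rintro (i | ⟨t, b⟩) (j | ⟨s, b'⟩) hne hb
    · exact Or.inl rfl
    · exact Or.inl rfl
    · exact Or.inr rfl
    · cases b
      · exact Or.inl rfl
      · cases b'
        · exact Or.inr rfl
        · exfalso
          apply hne
          have : (some t : Option T) = some s := hb
          rw [Option.some.inj this]

theorem starGen_codim {T : Type} [Fintype T] (c : T → ℕ) :
    codim (starGen n c) = ∑ t, (c t + 1) := by
  unfold codim
  have a : Fintype.card (starGen n c).1.V = Fintype.card T + 1 := by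
    rw [← Fintype.card_option]; exact Fintype.card_congr (Equiv.refl _)
  have b : ∑ h, (starGen n c).2 h = ∑ h : Fin n ⊕ T × Bool, starDec n c h :=
    Fintype.sum_equiv (Equiv.refl _) _ _ (fun _ => rfl)
  rw [a, b, Finset.sum_add_distrib]
  simp [starDec, Fintype.sum_sum_type, Fintype.sum_prod_type, add_comm]

theorem codim_iso {x y : Gen n} {f : x.1.H ≃ y.1.H} (hf : x.1.IsIso y.1 f)
    (hd : ∀ h, y.2 (f h) = x.2 h) : codim x = codim y := by
  obtain ⟨⟨e, -⟩, -, -⟩ := hf
  unfold codim
  rw [Fintype.card_congr e, Fintype.sum_equiv f _ _ (fun h => (hd h).symm)]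

/-- The multiset of shifted exponents on the univalent vertices. -/
noncomputable def mult (x : Gen n) : Multiset ℕ :=
  ∑ h, if x.1.val (x.1.base h) = 1 then {x.2 h + 1} else 0

theorem mult_iso {x y : Gen n} {f : x.1.H ≃ y.1.H} (hf : x.1.IsIso y.1 f)
    (hd : ∀ h, y.2 (f h) = x.2 h) : mult x = mult y := by
  unfold mult
  exact Fintype.sum_equiv f _ _ (fun h => by rw [val_base_iso hf, hd])

theorem starGen_mult (hn : 3 ≤ n) {T : Type} [Fintype T] (c : T → ℕ) :
    mult (starGen n c) = Finset.univ.val.map (fun t => c t + 1) := by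
  unfold mult
  have h0 : (star n T).val none ≠ 1 := by have := star_val_none (n := n) T; omega
  have b : (∑ h, if (starGen n c).1.val ((starGen n c).1.base h) = 1
      then ({(starGen n c).2 h + 1} : Multiset ℕ) else 0) =
      ∑ h : Fin n ⊕ T × Bool, Sum.elim (fun _ => 0)
        (fun p => if p.2 then ({c p.1 + 1} : Multiset ℕ) else 0) h := by
    refine Fintype.sum_equiv (Equiv.refl _) _ _ ?_
    rintro (i | ⟨t, b⟩)
    · exact if_neg h0
    · cases b
      · exact if_neg h0
      · exact if_pos (star_val_some T t)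
  rw [b]
  simp only [Fintype.sum_sum_type, Sum.elim_inl, Sum.elim_inr, Finset.sum_const_zero, zero_add,
    Fintype.sum_prod_type, Fintype.sum_bool, if_true, Bool.false_eq_true, if_false, add_zero]
  conv_rhs => rw [← Multiset.sum_map_singleton (Finset.univ.val.map _), Multiset.map_map]
  rfl

theorem exists_iso_star (hn : 3 ≤ n) {x : Gen n} (hx : Normal x) {v₀ : x.1.V}
    (h1 : ∀ i, x.1.base (x.1.leg i) = v₀) (h2 : ∀ v, v ≠ v₀ → x.1.val v = 1)
    {T : Type} [Fintype T] (c : T → ℕ) (e : T ≃ {h // x.1.base h ≠ v₀})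
    (hc : ∀ t, x.2 (e t) = c t) :
    ∃ f : (starGen n c).1.H ≃ x.1.H, (starGen n c).1.IsIso x.1 f ∧
      ∀ h, x.2 (f h) = (starGen n c).2 h := by
  obtain ⟨hT, hN, -⟩ := hx
  have hv0 : 3 ≤ x.1.val v₀ := hn.trans (le_val_of_legs hT h1)
  have hinv : ∀ t, x.1.base (x.1.inv (e t)) = v₀ := fun t => base_inv_tail hT h2 (e t).2
  have hleg : ∀ i, x.1.inv (x.1.leg i) = x.1.leg i := fun i => (hT.2.2.1 _).mpr ⟨i, rfl⟩
  let gV : Option T → x.1.V := fun o => o.elim v₀ (fun t => x.1.base (e t))
  have hgV : Function.Bijective gV := by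
    constructor
    · rintro (_ | s) (_ | t) h
      · rfl
      · exact absurd h.symm (e t).2
      · exact absurd h (e s).2
      · have : (e s : x.1.H) = e t := eq_of_val_one (h2 _ (e t).2) h rfl
        rw [e.injective (Subtype.ext this)]
    · intro v
      by_cases hv : v = v₀
      · exact ⟨none, hv.symm⟩
      · obtain ⟨h, hh⟩ := exists_of_val_one (h2 v hv)
        refine ⟨some (e.symm ⟨h, by rw [hh]; exact hv⟩), ?_⟩
        simp [gV, hh]
  let g : Fin n ⊕ T × Bool → x.1.H :=
    Sum.elim x.1.leg (fun p => if p.2 then (e p.1 : x.1.H) else x.1.inv (e p.1))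
  have hg : Function.Injective g := by
    rintro (i | ⟨s, _ | _⟩) (j | ⟨t, _ | _⟩) h
    · rw [hT.2.1 h]
    · exfalso
      have h' : x.1.leg i = x.1.inv (e t) := h
      have : x.1.leg i = e t := by rw [← hleg i, h', hT.1]
      exact (e t).2 (by rw [← this, h1])
    · exfalso
      have h' : x.1.leg i = e t := h
      exact (e t).2 (by rw [← h', h1])
    · exfalso
      have h' : x.1.inv (e s) = x.1.leg j := h
      have : x.1.leg j = e s := by rw [← hleg j, ← h', hT.1]
      exact (e s).2 (by rw [← this, h1])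
    · have h' : x.1.inv (e s) = x.1.inv (e t) := h
      rw [e.injective (Subtype.ext (hT.1.injective h'))]
    · exfalso
      have h' : x.1.inv (e s) = e t := h
      exact (e t).2 (by rw [← h', hinv])
    · exfalso
      have h' : (e s : x.1.H) = x.1.leg j := h
      exact (e s).2 (by rw [h', h1])
    · exfalso
      have h' : (e s : x.1.H) = x.1.inv (e t) := h
      exact (e s).2 (by rw [h', hinv])
    · have h' : (e s : x.1.H) = e t := h
      rw [e.injective (Subtype.ext h')]
  have hcard : Fintype.card (Fin n ⊕ T × Bool) = Fintype.card x.1.H := by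
    have a := Fintype.card_of_bijective hgV
    have b := hT.2.2.2.2
    simp only [Fintype.card_option] at a
    simp only [Fintype.card_sum, Fintype.card_fin, Fintype.card_prod, Fintype.card_bool]
    omega
  have hgb : Function.Bijective g := (Fintype.bijective_iff_injective_and_card g).mpr ⟨hg, hcard⟩
  refine ⟨Equiv.ofBijective g hgb, ⟨⟨Equiv.ofBijective gV hgV, ?_⟩, ?_, fun i => rfl⟩, ?_⟩
  · rintro (i | ⟨t, _ | _⟩)
    · exact h1 i
    · exact hinv t
    · rfl
  · rintro (i | ⟨t, _ | _⟩)
    · exact hleg i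
    · exact hT.1 _
    · rfl
  · rintro (i | ⟨t, _ | _⟩)
    · exact hN (x.1.leg i) (by rw [h1]; exact hv0)
    · exact hN (x.1.inv (e t)) (by rw [hinv]; exact hv0)
    · exact hc t

theorem exists_equiv_of_map_eq {α β γ : Type} [Fintype α] [Fintype β] (f : α → γ) (g : β → γ)
    (h : Finset.univ.val.map f = Finset.univ.val.map g) : ∃ e : α ≃ β, ∀ a, g (e a) = f a := by
  have hc : ∀ c, Fintype.card {a // f a = c} = Fintype.card {b // g b = c} := by
    intro c
    have := congrArg (Multiset.count c) h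
    rw [Multiset.count_map, Multiset.count_map] at this
    rw [Fintype.card_subtype, Fintype.card_subtype]
    simp only [eq_comm (b := c)]
    exact this
  exact ⟨Equiv.ofFiberEquiv (fun c => Fintype.equivOfCardEq (hc c)),
    fun a => Equiv.ofFiberEquiv_map _ a⟩

/-- The standard generator attached to a multiset. -/
noncomputable def std (n : ℕ) (μ : Multiset ℕ) : Gen n :=
  starGen n (T := μ.ToType) (fun t => (t : ℕ) - 1)

theorem std_map {μ : Multiset ℕ} (hμ : ∀ a ∈ μ, 0 < a) :
    Finset.univ.val.map (fun t : μ.ToType => (t : ℕ) - 1 + 1) = μ := by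
  rw [Multiset.map_univ μ (fun a => a - 1 + 1)]
  conv_rhs => rw [← Multiset.map_id μ]
  exact Multiset.map_congr rfl (fun a ha => by have := hμ a ha; simp only [id]; omega)

theorem std_mult (hn : 3 ≤ n) {μ : Multiset ℕ} (hμ : ∀ a ∈ μ, 0 < a) : mult (std n μ) = μ := by
  rw [std, starGen_mult hn, std_map hμ]

theorem std_codim {μ : Multiset ℕ} (hμ : ∀ a ∈ μ, 0 < a) : codim (std n μ) = μ.sum := by
  rw [std, starGen_codim, Finset.sum, std_map hμ]

theorem exists_iso_std (hn : 3 ≤ n) {x : Gen n} (hx : Normal x) (hU : x.1 ∈ tails n) :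
    ∃ μ : Multiset ℕ, (∀ a ∈ μ, 0 < a) ∧ ∃ f : (std n μ).1.H ≃ x.1.H,
      (std n μ).1.IsIso x.1 f ∧ ∀ h, x.2 (f h) = (std n μ).2 h := by
  obtain ⟨-, v₀, h1, h2⟩ := hU
  let μ : Multiset ℕ := Finset.univ.val.map (fun t : {h // x.1.base h ≠ v₀} => x.2 t + 1)
  refine ⟨μ, ?_, ?_⟩
  · intro a ha
    obtain ⟨t, -, rfl⟩ := Multiset.mem_map.mp ha
    omega
  · obtain ⟨e, he⟩ := exists_equiv_of_map_eq (fun t : μ.ToType => (t : ℕ))
      (fun t : {h // x.1.base h ≠ v₀} => x.2 t + 1) (Multiset.map_univ_coe μ)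
    exact exists_iso_star hn hx h1 h2 _ e (fun t => Nat.eq_sub_of_add_eq (he t))

noncomputable def phi (n : ℕ) : (Gen n →₀ ℚ) →ₗ[ℚ] (Multiset ℕ →₀ ℚ) :=
  Finsupp.linearCombination ℚ
    (fun x : Gen n => if x.1 ∈ tails n then Finsupp.single (mult x) (1 : ℚ) else 0)

theorem phi_single (x : Gen n) (a : ℚ) : phi n (Finsupp.single x a) =
    a • if x.1 ∈ tails n then Finsupp.single (mult x) (1 : ℚ) else 0 := by
  simp [phi]

theorem phi_gluedD (x : Gen n) (v : x.1.V) (i j k l : x.1.H) (hi : x.1.base i = v) :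
    phi n (gluedD x v i j k l) = 0 := by
  unfold gluedD
  rw [map_sum]
  refine Finset.sum_eq_zero (fun J hJ => ?_)
  obtain ⟨-, -, a, -, b, -⟩ := Finset.mem_filter.mp hJ
  rw [phi_single, if_neg (split_not_mem_tails hi a b), smul_zero]

theorem phi_rel (hn : 3 ≤ n) {r : Gen n →₀ ℚ} (hr : IsRel (tails n) r) : phi n r = 0 := by
  cases hr with
  | iso x y f hx hf hd =>
    rw [map_sub, phi_single, phi_single, sub_eq_zero]
    by_cases hU : x.1 ∈ tails n
    · rw [if_pos hU, if_pos (tails_iso hf hU), mult_iso hf hd]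
    · rw [if_neg hU, if_neg (fun h => hU (tails_iso (isIso_symm hf) h))]
  | sign x h h' hx hne hb hv h0 =>
    have hU : x.1 ∉ tails n := by
      rintro ⟨hT, v₀, h1, h2⟩
      by_cases hh : x.1.base h = v₀
      · have := le_val_of_legs hT h1
        rw [hh] at hv
        omega
      · have := h2 _ hh
        omega
    rw [map_sub, phi_single, phi_single, if_neg hU, if_neg hU]
    simp
  | wdvv x v i j k l hx hnd hb =>
    rw [map_sub, phi_gluedD x v i j k l (hb i (by simp)), phi_gluedD x v i k j l (hb i (by simp)),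
      sub_zero]
  | out x hx hU => rw [phi_single, if_neg hU, smul_zero]

theorem finrank_chow (hn : 3 ≤ n) (d : ℕ) :
    Module.Finite ℚ (chow (tails n) d) ∧
      Module.finrank ℚ (chow (tails n) d) = Fintype.card (Nat.Partition d) := by
  let R : Submodule ℚ (Gen n →₀ ℚ) := Submodule.span ℚ {r | IsRel (tails n) r}
  have hR : R ≤ LinearMap.ker (phi n) := Submodule.span_le.mpr (fun r hr => phi_rel hn hr)
  let b : Nat.Partition d → (Gen n →₀ ℚ) ⧸ R := fun p =>
    Submodule.Quotient.mk (Finsupp.single (std n p.parts) 1)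
  have hli : LinearIndependent ℚ b := by
    apply LinearIndependent.of_comp (R.liftQ (phi n) hR)
    have : (R.liftQ (phi n) hR) ∘ b =
        (fun μ : Multiset ℕ => Finsupp.single μ (1 : ℚ)) ∘ (fun p : Nat.Partition d => p.parts) := by
      funext p
      simp only [Function.comp, b, Submodule.liftQ_apply]
      rw [phi_single, if_pos (show (std n p.parts).1 ∈ tails n from star_mem_tails _), std_mult hn (fun a ha => p.parts_pos ha), one_smul]
    rw [this]
    exact (Finsupp.basisSingleOne (R := ℚ) (ι := Multiset ℕ)).linearIndependent.comp _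
      (fun p q h => Nat.Partition.ext h)
  have hspan : chow (tails n) d = Submodule.span ℚ (Set.range b) := by
    apply le_antisymm
    · apply Submodule.span_le.mpr
      rintro _ ⟨x, hx, hd, rfl⟩
      by_cases hU : x.1 ∈ tails n
      · obtain ⟨μ, hμ, f, hf, hdec⟩ := exists_iso_std hn hx hU
        have hs : μ.sum = d := by rw [← std_codim (n := n) hμ, codim_iso hf hdec, hd]
        apply Submodule.subset_span
        refine ⟨⟨μ, fun {a} ha => hμ a ha, hs⟩, ?_⟩
        exact (Submodule.Quotient.eq R).mpr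
          (Submodule.subset_span (IsRel.iso _ x f (starGen_normal _) hf hdec))
      · have : (Submodule.Quotient.mk (Finsupp.single x 1) : (Gen n →₀ ℚ) ⧸ R) = 0 :=
          (Submodule.Quotient.mk_eq_zero R).mpr (Submodule.subset_span (IsRel.out x hx hU))
        rw [this]
        exact Submodule.zero_mem _
    · apply Submodule.span_le.mpr
      rintro _ ⟨p, rfl⟩
      apply Submodule.subset_span
      exact ⟨std n p.parts, starGen_normal _,
        by rw [std_codim (fun a ha => p.parts_pos ha), p.parts_sum], rfl⟩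
  rw [hspan]
  exact ⟨Module.Finite.span_of_finite ℚ (Set.finite_range b), finrank_span_eq_card hli⟩

end Pool.Agent.MP_52bf41_ag.H48
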