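import Mathlib

/-! The partition generating function is not rational. -/

namespace Pool.Agent.MP_52bf41_ag.H48

open PowerSeries
open scoped PowerSeries.WithPiTopology

theorem partition_mul_pentagonal :
    (PowerSeries.mk fun d => (Fintype.card (Nat.Partition d) : ℂ)) * pentagonalSeries ℂ = 1 := by
  have h1 := Nat.Partition.hasProd_powerSeriesMk_card_restricted ℂ (fun _ => True)
  have h2 := PowerSeries.WithPiTopology.hasProd_one_sub_X_pow ℂ
  have h3 := h1.mul h2
  have h4 : (fun i : ℕ => (if True then ∑' j : ℕ, (X : ℂ⟦X⟧) ^ ((i + 1) * j) else 1) *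
      (1 - X ^ (i + 1))) = fun _ => 1 := by
    funext i
    simp only [if_true, pow_mul]
    exact PowerSeries.WithPiTopology.tsum_pow_mul_one_sub_of_constantCoeff_eq_zero (by simp)
  rw [h4] at h3
  have h5 := h3.unique hasProd_one
  rw [← h5]
  congr 2
  funext d
  simp [Nat.Partition.restricted]

theorem pentagonal_gap (k : ℕ) (j : ℤ) (h1 : pentagonal (-(k : ℤ)) < pentagonal j) :
    pentagonal (-(k : ℤ)) + 2 * k + 1 ≤ pentagonal j := by
  have a := two_mul_natCast_pentagonal j
  have b := two_mul_natCast_pentagonal_neg (k : ℤ)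
  have h1' : (pentagonal (-(k : ℤ)) : ℤ) < pentagonal j := by exact_mod_cast h1
  have hk : (0 : ℤ) ≤ k := by positivity
  suffices (pentagonal (-(k : ℤ)) : ℤ) + 2 * k + 1 ≤ pentagonal j by exact_mod_cast this
  rcases le_or_gt ((k : ℤ) + 1) j with h | h
  · nlinarith
  · rcases le_or_gt j (-((k : ℤ) + 1)) with h' | h'
    · nlinarith
    · exfalso
      have : j ≤ k := by omega
      have : -(k : ℤ) ≤ j := by omega
      nlinarith

theorem le_pentagonal_neg (k : ℕ) : k ≤ pentagonal (-(k : ℤ)) := by
  have b := two_mul_natCast_pentagonal_neg (k : ℤ)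
  have hk : (0 : ℤ) ≤ k := by positivity
  suffices (k : ℤ) ≤ pentagonal (-(k : ℤ)) by exact_mod_cast this
  nlinarith

theorem poly_mul_pentagonal_ne (P Q : Polynomial ℂ) (hP : P ≠ 0) :
    (P : ℂ⟦X⟧) * pentagonalSeries ℂ ≠ Q := by
  intro h
  set k := P.natDegree + Q.natDegree + 1 with hk
  set m := pentagonal (-(k : ℤ)) with hm
  have hkm : k ≤ m := le_pentagonal_neg k
  have hc := congrArg (PowerSeries.coeff (P.natDegree + m)) h
  rw [Polynomial.coeff_coe, Polynomial.coeff_eq_zero_of_natDegree_lt (by omega),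
    PowerSeries.coeff_mul, Finset.sum_eq_single (P.natDegree, m)] at hc
  · simp only [Polynomial.coeff_coe, Polynomial.coeff_natDegree, mul_eq_zero,
      Polynomial.leadingCoeff_eq_zero, hP, false_or, coeff_pentagonalSeries_eq_zero_iff] at hc
    exact hc ⟨_, rfl⟩
  · rintro ⟨a, b⟩ hab hne
    have hab : a + b = P.natDegree + m := by simpa using hab
    simp only [Polynomial.coeff_coe]
    rcases lt_trichotomy a P.natDegree with ha | ha | ha
    · rw [coeff_pentagonalSeries_eq_zero, mul_zero]
      rintro ⟨j, hj⟩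
      have := pentagonal_gap k j (by omega)
      omega
    · exfalso
      apply hne
      subst ha
      simp only [Prod.mk.injEq, true_and]
      omega
    · rw [Polynomial.coeff_eq_zero_of_natDegree_lt ha, zero_mul]
  · intro hh
    simp at hh

theorem partition_not_rational (P Q : Polynomial ℂ) (hQ : Q ≠ 0) :
    (Q : ℂ⟦X⟧) * (PowerSeries.mk fun d => (Fintype.card (Nat.Partition d) : ℂ)) ≠ P := by
  intro h
  have h1 : (P : ℂ⟦X⟧) * pentagonalSeries ℂ = Q := by
    rw [← h, mul_assoc, partition_mul_pentagonal, mul_one]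
  have hP : P ≠ 0 := by
    rintro rfl
    apply hQ
    simp only [Polynomial.coe_zero, zero_mul] at h1
    exact Polynomial.coe_eq_zero_iff.mp h1.symm
  exact poly_mul_pentagonal_ne P Q hP h1

end Pool.Agent.MP_52bf41_ag.H48
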